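import Pool.Agent.Q281.QC.Stmt2
import Pool.Agent.Q281.QC.FinCD

set_option autoImplicit false

/-!
# MP_c25fd9_nt: a q-analogue of Liu's supercongruence for `n ≡ 1 (mod 4)` (Q1)

`S_{m,n}(q) ≡ C_n(q) T_m (mod Φ_n(q)^2)` for all `m ≥ 1` and all `n > 1`, `n ≡ 1 (mod 4)`.

Method. Put `T(N,k) = q^(2k) ∏_{i<k} (1-q^(2i+1+N)) (1-q^(2i+1-N)) (1-q^(4i+2)) /
((1-q^(2i+2))^2 (1-q^(4i+4)))`. For odd `N = 2M+1` the sum of `T(N,k)` over `k` terminates; it is `0` for odd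
`M` and `q^M ((q^2;q^4)_(M/2) / (q^4;q^4)_(M/2))^2` for even `M` (Andrews' q-analogue of Watson's sum, proved
here by telescoping). For `N = s n` and modulo `(q^n-1)^2` the sum over a block `l n ≤ k < (l+1) n` is
`w_l(s) B_l` with a rational number `w_l(s)` and `B_l` independent of `s`. The evaluations at
`s = 1, 3, 5, …` form a triangular system for the `B_l`, which has the same solution, up to the factor
`C_n(q)`, as the system for `n = 1`, `q → 1`; then one puts `s = 0`. The comparison of the evaluations for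
`s n` uses complete residue systems modulo `n`.
-/

namespace Pool.Agent.Results.MP_c25fd9_nt.LiuQAnalogue

open Polynomial Pool.Agent.Q281.QCD Pool.Agent.Q281

/-- `a_k(q)`. -/
noncomputable def a (k : ℕ) : RatFunc ℚ :=
  qp q (q ^ 2) k ^ 2 * qp (q ^ 2) (q ^ 4) k * q ^ (2 * k) /
    (qp (q ^ 2) (q ^ 2) k ^ 2 * qp (q ^ 4) (q ^ 4) k)

/-- `S_{m,n}(q)`. -/
noncomputable def S (m n : ℕ) : RatFunc ℚ := ∑ k ∈ Finset.range (m * n), a k

/-- `T_m`. -/
noncomputable def T (m : ℕ) : ℚ :=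
  ∑ k ∈ Finset.range m, rise (1 / 2) k ^ 3 / (k.factorial : ℚ) ^ 3

/-- `C_n(q)`. -/
noncomputable def C (n : ℕ) : RatFunc ℚ :=
  qint n * qp (q ^ 3) (q ^ 4) ((n - 1) / 2) / qp (q ^ 5) (q ^ 4) ((n - 1) / 2)

/-- Q1. -/
theorem result : ∀ m n : ℕ, 1 ≤ m → 1 < n → n % 4 = 1 →
    CongrPhiSq n (S m n) (C n * ((T m : ℚ) : RatFunc ℚ)) := by
  intro m n _ _ h4
  obtain ⟨t, rfl⟩ : ∃ t, n = 4 * t + 1 := ⟨n / 4, by omega⟩
  apply congr_of_cg (by omega)
  have key := QC.dworkD' t m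
  have eS : S m (4 * t + 1) = ∑ k ∈ Finset.range (m * (4 * t + 1)),
      QC.q ^ (2 * k) * QC.PP 1 2 0 2 0 k := by
    rw [S]
    refine Finset.sum_congr rfl fun k _ => ?_
    have h1 := QC.PP_pd 0 k
    rw [pow_zero, Nat.cast_zero] at h1
    have h2 : QC.pd q 1 k = qp q (q ^ 2) k ^ 2 * qp (q ^ 2) (q ^ 4) k /
        (qp (q ^ 2) (q ^ 2) k ^ 2 * qp (q ^ 4) (q ^ 4) k) := by
      rw [QC.pd, qp, qp, qp, qp, ← Finset.prod_pow, ← Finset.prod_pow, ← Finset.prod_mul_distrib,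
        ← Finset.prod_mul_distrib, ← Finset.prod_div_distrib]
      refine Finset.prod_congr rfl fun i _ => ?_
      rw [inv_one, one_mul]
      have e1 : q * (q ^ 2) ^ i = q ^ (2 * i + 1) := by rw [← pow_mul, ← pow_succ']
      have e2 : q ^ 2 * (q ^ 2) ^ i = q ^ (2 * i + 2) := by rw [← pow_succ', ← pow_mul]; congr 1
      have e3 : q ^ 2 * (q ^ 4) ^ i = q ^ (4 * i + 2) := by
        rw [← pow_mul, ← pow_add]; congr 1; ring
      have e4 : q ^ 4 * (q ^ 4) ^ i = q ^ (4 * i + 4) := by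
        rw [← pow_mul, ← pow_add]; congr 1; ring
      rw [e1, e2, e3, e4]
      congr 1
      ring
    rw [h1, h2, a]
    ring
  have eT : T m = ∑ l ∈ Finset.range m, QC.ww 0 2 0 l := by
    rw [T]
    exact Finset.sum_congr rfl fun l _ => (ww2 0 l).symm
  have eC : C (4 * t + 1) = QC.CC t := by
    have e0 : (4 * t + 1 - 1) / 2 = 2 * t := by omega
    rw [C, QC.CC, e0, qp, qp, qint_eq]
    have e3 : ∀ j : ℕ, q ^ 3 * (q ^ 4) ^ j = q ^ (4 * j + 3) := fun j => by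
      rw [← pow_mul, ← pow_add]; congr 1; ring
    have e5 : ∀ j : ℕ, q ^ 5 * (q ^ 4) ^ j = q ^ (4 * j + 5) := fun j => by
      rw [← pow_mul, ← pow_add]; congr 1; ring
    simp only [e3, e5]
  rw [eS, eT, eC]
  exact key

end Pool.Agent.Results.MP_c25fd9_nt.LiuQAnalogue
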